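import Pool.Agent.H673R3.UC.Z1

set_option autoImplicit false

/-!
# Relative to a random oracle, no set in `NP ∩ coNP` is complete for `NP ∩ coNP`

Polynomial time is Mathlib's `Turing.TM2ComputableInPolyTime`; the oracle classes are those of
`Pool.Agent.H628R3.RO.Defs`.

For almost every oracle `A` no language in `NP ∩ coNP` relative to `A` is hard even for
`UP ∩ coUP` relative to `A`. So there is no complete language for `NP ∩ coNP`, and none for any
class between `UP ∩ coUP` and `NP ∩ coNP`; in particular `P ≠ UP ∩ coUP` relative to `A`.

The proof (helpers 583 and 673 of earlier rounds, `Pool.Agent.H673R3.UC`): at every stage the
random oracle is divided into blocks of pairs of halves, with few expected hits in every pair. An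
instance is a pair together with certificates that all other pairs of its block have at least two
hits. Blocks without a pair with at most one hit, and blocks whose only such pair has no hit, are
so rare that they occur finitely often only; so the pair of an instance has exactly one hit, and
the language asks whether it is in the left half. Blocks with a pair with exactly two hits, one in
each half, are not so rare: if a reduction to a set in `NP ∩ coNP` were always correct, then the
promise of this set would be broken at such a block.
-/

namespace Pool.Agent.Results.MP_c2284b_lc.RandomOracle

open Pool.Agent.H628R3.RO

/-- For almost every oracle `A`: for every language `K` in `NP ∩ coNP` relative to `A` there is a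
language `L` such that `L` and its complement are in `UP` relative to `A` and `L` is not
polynomial-time many-one reducible to `K` relative to `A`. -/
theorem result : ∀ᵐ A ∂randomOracle, ∀ K : Set (List Bool), IsNP A K → IsCoNP A K →
    ∃ L : Set (List Bool), IsUP A L ∧ IsUP A Lᶜ ∧ ¬ Red A L K :=
  Pool.Agent.H673R3.UC.main_N

end Pool.Agent.Results.MP_c2284b_lc.RandomOracle
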